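import Mathlib

/-! Continuous images of compact spaces with a fragmenting lower semicontinuous distance, and
tightness of images of compact spaces. -/

set_option autoImplicit false

open Cardinal Topology Set
open scoped Ordinal

namespace Pool.Agent.H66.QR

universe u

/-- Minimal closed set whose image covers a given closed set. -/
theorem exists_min {L K : Type u} [TopologicalSpace L] [CompactSpace L] [TopologicalSpace K]
    [T2Space K] {φ : L → K} (hφ : Continuous φ) (hs : Function.Surjective φ) (A : Set K) :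
    ∃ B : Set L, IsClosed B ∧ A ⊆ φ '' B ∧
      ∀ B' : Set L, IsClosed B' → B' ⊆ B → A ⊆ φ '' B' → B ⊆ B' := by
  obtain ⟨m, hm⟩ := zorn_superset {B : Set L | IsClosed B ∧ A ⊆ φ '' B} (by
    intro c hc hch
    rcases c.eq_empty_or_nonempty with rfl | hne
    · exact ⟨univ, ⟨isClosed_univ, fun x _ => by
        obtain ⟨u, rfl⟩ := hs x
        exact ⟨u, mem_univ _, rfl⟩⟩, fun s hs' => absurd hs' (notMem_empty s)⟩
    · refine ⟨⋂₀ c, ⟨isClosed_sInter fun s hs' => (hc hs').1, ?_⟩, fun s hs' => sInter_subset_of_mem hs'⟩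
      intro x hx
      have : Nonempty c := hne.to_subtype
      have h := IsCompact.nonempty_iInter_of_directed_nonempty_isCompact_isClosed
        (fun s : c => φ ⁻¹' {x} ∩ s.1) (by
          intro s t
          rcases hch.total s.2 t.2 with h | h
          · exact ⟨s, subset_rfl, inter_subset_inter_right _ h⟩
          · exact ⟨t, inter_subset_inter_right _ h, subset_rfl⟩)
        (by
          intro s
          obtain ⟨u, hu, hux⟩ := (hc s.2).2 hx
          exact ⟨u, hux, hu⟩)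
        (fun s => ((isClosed_singleton.preimage hφ).inter (hc s.2).1).isCompact)
        (fun s => (isClosed_singleton.preimage hφ).inter (hc s.2).1)
      obtain ⟨u, hu⟩ := h
      rw [mem_iInter] at hu
      refine ⟨u, ?_, (hu (Classical.arbitrary c)).1⟩
      rw [mem_sInter]
      intro t ht
      exact (hu ⟨t, ht⟩).2)
  refine ⟨m, hm.prop.1, hm.prop.2, fun B' h1 h2 h3 => ?_⟩
  exact hm.le_of_le ⟨h1, h3⟩ h2

/-- The image distance. -/
theorem image_dist {L K : Type u} [TopologicalSpace L] [CompactSpace L] [TopologicalSpace K]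
    [T2Space K] {φ : L → K} (hφ : Continuous φ) (hs : Function.Surjective φ)
    {d : L → L → ℝ} (h0 : ∀ x y, 0 ≤ d x y) (h1 : ∀ x y, d x y = 0 ↔ x = y)
    (h2 : ∀ x y, d x y = d y x)
    (hlsc : LowerSemicontinuous (fun p : L × L => d p.1 p.2))
    (hfr : ∀ A : Set L, A.Nonempty → ∀ ε : ℝ, 0 < ε → ∃ U : Set L, IsOpen U ∧ (U ∩ A).Nonempty ∧
      ∃ η < ε, ∀ x ∈ U ∩ A, ∀ y ∈ U ∩ A, d x y ≤ η) :
    ∃ e : K → K → ℝ, (∀ x y, 0 ≤ e x y) ∧ (∀ x y, e x y = 0 ↔ x = y) ∧ (∀ x y, e x y = e y x) ∧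
      LowerSemicontinuous (fun p : K × K => e p.1 p.2) ∧
      ∀ A : Set K, A.Nonempty → ∀ ε : ℝ, 0 < ε → ∃ U : Set K, IsOpen U ∧ (U ∩ A).Nonempty ∧
        ∃ η < ε, ∀ x ∈ U ∩ A, ∀ y ∈ U ∩ A, e x y ≤ η := by
  have key : ∀ x y : K, ∃ p : L × L, (φ p.1 = x ∧ φ p.2 = y) ∧
      ∀ q : L × L, φ q.1 = x → φ q.2 = y → d p.1 p.2 ≤ d q.1 q.2 := by
    intro x y
    have hne : {q : L × L | φ q.1 = x ∧ φ q.2 = y}.Nonempty := by
      obtain ⟨u, hu⟩ := hs x
      obtain ⟨v, hv⟩ := hs y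
      exact ⟨(u, v), hu, hv⟩
    have hcl : IsClosed {q : L × L | φ q.1 = x ∧ φ q.2 = y} := by
      refine IsClosed.inter (isClosed_eq (hφ.comp continuous_fst) continuous_const)
        (isClosed_eq (hφ.comp continuous_snd) continuous_const)
    obtain ⟨p, hp, hmin⟩ := LowerSemicontinuousOn.exists_isMinOn hne hcl.isCompact
      (hlsc.lowerSemicontinuousOn _)
    exact ⟨p, hp, fun q hq1 hq2 => hmin ⟨hq1, hq2⟩⟩
  choose p hp hmin using key
  have hsymm : ∀ x y, d (p x y).1 (p x y).2 ≤ d (p y x).1 (p y x).2 := by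
    intro x y
    rw [h2 (p y x).1]
    exact hmin x y ((p y x).2, (p y x).1) (hp y x).2 (hp y x).1
  refine ⟨fun x y => d (p x y).1 (p x y).2, fun x y => h0 _ _, fun x y => ⟨fun h => ?_, ?_⟩,
    fun x y => le_antisymm (hsymm x y) (hsymm y x), ?_, ?_⟩
  · have := (h1 _ _).mp h
    exact (hp x y).1.symm.trans ((congrArg φ this).trans (hp x y).2)
  · rintro rfl
    obtain ⟨u, hu⟩ := hs x
    refine le_antisymm ?_ (h0 _ _)
    have := hmin x x (u, u) hu hu
    rwa [(h1 u u).mpr rfl] at this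
  · rw [lowerSemicontinuous_iff_isClosed_preimage]
    intro c
    have hcl : IsClosed ((fun q : L × L => d q.1 q.2) ⁻¹' Iic c) :=
      (lowerSemicontinuous_iff_isClosed_preimage.mp hlsc) c
    have hc2 : Continuous (fun q : L × L => ((φ q.1, φ q.2) : K × K)) :=
      (hφ.comp continuous_fst).prodMk (hφ.comp continuous_snd)
    have heq : (fun q : K × K => d (p q.1 q.2).1 (p q.1 q.2).2) ⁻¹' Iic c =
        (fun q : L × L => ((φ q.1, φ q.2) : K × K)) '' ((fun q : L × L => d q.1 q.2) ⁻¹' Iic c) := by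
      ext ⟨x, y⟩
      constructor
      · intro h
        exact ⟨p x y, h, Prod.ext (hp x y).1 (hp x y).2⟩
      · rintro ⟨⟨u, v⟩, h, hxy⟩
        rw [Prod.mk.injEq] at hxy
        exact (hmin x y (u, v) hxy.1 hxy.2).trans h
    rw [heq]
    exact (hcl.isCompact.image hc2).isClosed
  · intro A hA ε hε
    obtain ⟨B, hBc, hAB, hBmin⟩ := exists_min hφ hs (closure A)
    have hBne : B.Nonempty := by
      obtain ⟨a, ha⟩ := hA
      obtain ⟨b, hb, -⟩ := hAB (subset_closure ha)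
      exact ⟨b, hb⟩
    obtain ⟨U, hU, ⟨b, hbU, hbB⟩, η, hη, hd⟩ := hfr B hBne ε hε
    have hcl : IsClosed (φ '' (B \ U)) :=
      ((hBc.sdiff hU).isCompact.image hφ).isClosed
    have hnot : ¬ closure A ⊆ φ '' (B \ U) := by
      intro h
      exact (hBmin _ (hBc.sdiff hU) sdiff_subset h hbB).2 hbU
    have hnot2 : ¬ A ⊆ φ '' (B \ U) := fun h => hnot (hcl.closure_subset_iff.mpr h)
    obtain ⟨a, haA, ha⟩ := not_subset.mp hnot2
    have hcov : ∀ x ∈ (φ '' (B \ U))ᶜ ∩ A, ∃ u ∈ U ∩ B, φ u = x := by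
      rintro x ⟨hx1, hx2⟩
      obtain ⟨u, hu, hux⟩ := hAB (subset_closure hx2)
      refine ⟨u, ⟨?_, hu⟩, hux⟩
      by_contra hnU
      exact hx1 ⟨u, ⟨hu, hnU⟩, hux⟩
    refine ⟨(φ '' (B \ U))ᶜ, hcl.isOpen_compl, ⟨a, ha, haA⟩, η, hη, fun x hx y hy => ?_⟩
    obtain ⟨u, hu, hux⟩ := hcov x hx
    obtain ⟨v, hv, hvy⟩ := hcov y hy
    exact (hmin x y (u, v) hux hvy).trans (hd u hu v hv)

/-- Tightness at most `ℵ₁` passes to continuous images of closed subspaces of compact spaces. -/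
theorem tight_image {K M : Type u} [TopologicalSpace K] [CompactSpace K] [TopologicalSpace M]
    [T2Space M]
    (ht : ∀ (B : Set K) (q : K), q ∈ closure B → ∃ B' ⊆ B, #B' ≤ ℵ₁ ∧ q ∈ closure B')
    (F : Set K) (hF : IsClosed F) {φ : F → M} (hφ : Continuous φ) (hs : Function.Surjective φ)
    (B : Set M) (q : M) (hq : q ∈ closure B) : ∃ B' ⊆ B, #B' ≤ ℵ₁ ∧ q ∈ closure B' := by
  have : CompactSpace F := isCompact_iff_compactSpace.mp hF.isCompact
  have h1 : q ∈ φ '' closure (φ ⁻¹' B) := by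
    have hcl : IsClosed (φ '' closure (φ ⁻¹' B)) := (isClosed_closure.isCompact.image hφ).isClosed
    have hsub : B ⊆ φ '' closure (φ ⁻¹' B) := by
      intro b hb
      obtain ⟨x, rfl⟩ := hs b
      exact ⟨x, subset_closure hb, rfl⟩
    exact (hcl.closure_subset_iff.mpr hsub) hq
  obtain ⟨x, hx, rfl⟩ := h1
  rw [closure_subtype] at hx
  obtain ⟨B', hB', hcard, hx'⟩ := ht _ _ hx
  refine ⟨φ '' (Subtype.val ⁻¹' B'), ?_, ?_, ?_⟩
  · rintro _ ⟨y, hy, rfl⟩
    obtain ⟨z, hz, hzy⟩ := hB' hy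
    rw [← Subtype.ext hzy]
    exact hz
  · refine mk_image_le.trans ?_
    refine le_trans ?_ hcard
    exact mk_preimage_of_injective _ _ Subtype.val_injective
  · have h2 : x ∈ closure (Subtype.val ⁻¹' B' : Set F) := by
      rw [closure_subtype]
      have : (Subtype.val '' (Subtype.val ⁻¹' B' : Set F)) = B' := by
        rw [image_preimage_eq_iff]
        intro y hy
        obtain ⟨z, _, hzy⟩ := hB' hy
        exact ⟨z, hzy⟩
      rwa [this]
    exact image_closure_subset_closure_image hφ ⟨x, h2, rfl⟩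

/-- A space of tightness at most `ℵ₁` contains no copy of `[0, ω₂]`. -/
theorem no_copy {M : Type u} [TopologicalSpace M]
    (ht : ∀ (B : Set M) (q : M), q ∈ closure B → ∃ B' ⊆ B, #B' ≤ ℵ₁ ∧ q ∈ closure B') :
    ¬ ∃ f : Set.Iic (ℵ_ 2 : Cardinal.{u}).ord → M, IsEmbedding f := by
  rintro ⟨f, hf⟩
  obtain ⟨top, htop⟩ : ∃ top : Set.Iic (ℵ_ 2 : Cardinal.{u}).ord,
      top.1 = (ℵ_ 2 : Cardinal.{u}).ord := ⟨⟨(ℵ_ 2 : Cardinal.{u}).ord, mem_Iic.mpr le_rfl⟩, rfl⟩
  have hlim : Order.IsSuccLimit (ℵ_ 2 : Cardinal.{u}).ord := isSuccLimit_ord (aleph0_le_aleph 2)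
  have h1 : top ∈ closure {u : Set.Iic (ℵ_ 2 : Cardinal.{u}).ord |
      u.1 < (ℵ_ 2 : Cardinal.{u}).ord} := by
    rw [closure_subtype, htop]
    have h2 : (Subtype.val '' {u : Set.Iic (ℵ_ 2 : Cardinal.{u}).ord |
        u.1 < (ℵ_ 2 : Cardinal.{u}).ord}) = Iio (ℵ_ 2 : Cardinal.{u}).ord := by
      ext x
      constructor
      · rintro ⟨u, hu, rfl⟩; exact hu
      · intro hx
        exact ⟨⟨x, mem_Iic.mpr (le_of_lt (mem_Iio.mp hx))⟩, hx, rfl⟩
    rw [h2]
    refine IsLUB.mem_closure (hlim.isLUB_Iio) ?_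
    exact ⟨0, hlim.bot_lt⟩
  have hq : f top ∈ closure (f '' {u : Set.Iic (ℵ_ 2 : Cardinal.{u}).ord |
      u.1 < (ℵ_ 2 : Cardinal.{u}).ord}) := image_closure_subset_closure_image hf.continuous
      ⟨top, h1, rfl⟩
  obtain ⟨B', hB', hcard, hx⟩ := ht _ _ hq
  choose u hu hfu using hB'
  obtain ⟨v, hv⟩ : ∃ v : Ordinal.{u}, v = ⨆ i : B', (u i.2).1 := ⟨_, rfl⟩
  have hreg : Cardinal.IsRegular (ℵ_ 2 : Cardinal.{u}) := by
    have : (ℵ_ 2 : Cardinal.{u}) = ℵ_ (1 + 1) := by rw [one_add_one_eq_two]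
    rw [this]
    exact isRegular_aleph_add_one 1
  have hvlt : v < (ℵ_ 2 : Cardinal.{u}).ord := by
    rw [hv]
    refine Ordinal.iSup_lt_of_lt_cof ?_ (fun i => hu _)
    rw [hreg.cof_ord]
    have h2 : (ℵ_ 2 : Cardinal.{u}) = Order.succ ℵ₁ := by
      rw [succ_aleph, one_add_one_eq_two]
    rw [h2]
    exact Order.lt_succ_of_le hcard
  have hsub : B' ⊆ f '' {w : Set.Iic (ℵ_ 2 : Cardinal.{u}).ord | w.1 ≤ v} := by
    intro y hy
    refine ⟨u hy, ?_, hfu hy⟩
    have h4 := Ordinal.le_iSup (fun i : B' => (u i.2).1) ⟨y, hy⟩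
    rw [← hv] at h4
    exact h4
  have h5 : f top ∈ closure (f '' {w : Set.Iic (ℵ_ 2 : Cardinal.{u}).ord | w.1 ≤ v}) :=
    closure_mono hsub hx
  have h6 : top ∈ closure {w : Set.Iic (ℵ_ 2 : Cardinal.{u}).ord | w.1 ≤ v} := by
    rw [hf.closure_eq_preimage_closure_image]
    exact h5
  have h7 : IsClosed {w : Set.Iic (ℵ_ 2 : Cardinal.{u}).ord | w.1 ≤ v} :=
    isClosed_Iic.preimage continuous_subtype_val
  rw [h7.closure_eq] at h6
  have h8 : top.1 ≤ v := h6
  rw [htop] at h8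
  exact absurd hvlt (not_lt.mpr h8)

end Pool.Agent.H66.QR
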